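import Pool.Agent.helper4.GA.Spec
import Pool.Agent.helper32.Cant.Basic

set_option autoImplicit false

/-! # Row ga:TWO -/

open Finset
open Pool.Agent.helper32.Cant

namespace Pool.Agent.GA

section gen

variable {X : Type} [Fintype X]

theorem TWO_mj_pos (n j : ℕ) (R : X → ℕ) (w : X → ℝ) (hw : ∀ x, 0 < w x) (x : X) :
    0 < mj n R w j x := by
  unfold mj
  have h1 : w x * ind (|(R x : ℤ) - R x| ≤ 3 ^ (n - j)) ≤
      ∑ y, w y * ind (|(R y : ℤ) - R x| ≤ 3 ^ (n - j)) :=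
    Finset.single_le_sum (f := fun y => w y * ind (|(R y : ℤ) - R x| ≤ 3 ^ (n - j)))
      (fun y _ => mul_nonneg (hw y).le (ind_nonneg _)) (Finset.mem_univ x)
  refine lt_of_lt_of_le ?_ h1
  rw [ind_of (by rw [sub_self, abs_zero]; positivity), mul_one]
  exact hw x

theorem TWO_mj_anti (n j : ℕ) (R : X → ℕ) (w : X → ℝ) (hw : ∀ x, 0 < w x) (x : X) :
    mj n R w (j + 1) x ≤ mj n R w j x := by
  unfold mj
  apply Finset.sum_le_sum
  intro y _
  apply mul_le_mul_of_nonneg_left _ (hw y).le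
  by_cases h : |(R y : ℤ) - R x| ≤ 3 ^ (n - (j + 1))
  · rw [ind_of h, ind_of (h.trans (pow_le_pow_right₀ (by norm_num) (by omega)))]
  · rw [ind_of_not h]
    exact ind_nonneg _

theorem TWO_om (n : ℕ) (R : X → ℕ) (w : X → ℝ) (hw : ∀ x, 0 < w x) (x : X) (i : ℕ) :
    0 ≤ om n R w i x ∧ om n R w i x ≤ 1 := by
  unfold om
  have h1 := TWO_mj_pos n (i + 2) R w hw x
  have h2 := TWO_mj_pos n (i + 3) R w hw x
  have h3 := TWO_mj_anti n (i + 2) R w hw x
  refine ⟨?_, ?_⟩
  · have : mj n R w (i + 3) x / mj n R w (i + 2) x ≤ 1 := by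
      rw [div_le_one h1]
      exact h3
    linarith
  · have : 0 ≤ mj n R w (i + 3) x / mj n R w (i + 2) x := by positivity
    linarith

end gen

theorem TWO_log3 : Real.log 3 ≤ 1.19314719 := by
  have h1 : Real.log 3 = Real.log 2 + Real.log (3 / 2) := by
    rw [← Real.log_mul (by norm_num) (by norm_num)]
    norm_num
  have h2 := Real.log_le_sub_one_of_pos (show (0 : ℝ) < 3 / 2 by norm_num)
  have h3 := Real.log_two_lt_d9
  rw [h1]
  linarith

theorem TWO_log40 : Real.log 40 - 2 * Real.log 3 ≤ 1.4975 := by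
  have h1 : Real.log 40 - 2 * Real.log 3 = 2 * Real.log 2 + Real.log (10 / 9) := by
    have e1 : Real.log 40 = 2 * Real.log 2 + Real.log 10 := by
      have : (40 : ℝ) = 2 ^ 2 * 10 := by norm_num
      rw [this, Real.log_mul (by norm_num) (by norm_num), Real.log_pow]
      norm_num
    have e2 : Real.log (10 / 9) = Real.log 10 - 2 * Real.log 3 := by
      rw [Real.log_div (by norm_num) (by norm_num)]
      have : (9 : ℝ) = 3 ^ 2 := by norm_num
      rw [this, Real.log_pow]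
      norm_num
    rw [e1, e2]
    ring
  have h2 := Real.log_le_sub_one_of_pos (show (0 : ℝ) < 10 / 9 by norm_num)
  have h3 := Real.log_two_lt_d9
  rw [h1]
  linarith

/-- the numerical part -/
theorem TWO_num {n κ m g : ℕ} {y K N M W : ℝ} (h1 : m + g ≤ κ) (h2 : κ ≤ m + 3 * g) (hg : 4 ≤ g)
    (hκ : κ ≤ n) (hK : 2 ≤ K) (hN : Real.exp y * 3 ^ (n - κ) ≤ N) (hM0 : 0 < M)
    (hM : M ≤ 40 * 3 ^ (n - (m + 2))) {M2 : ℝ} (hM2 : N ≤ K * M2)
    (hW : Real.log (M2 / M) / (2 * Real.log K) ≤ W) :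
    (y - Real.log K - 4 * g) / (2 * Real.log K) ≤ W := by
  have hlK : 0 < Real.log K := Real.log_pos (by linarith)
  refine le_trans ?_ hW
  apply div_le_div_of_nonneg_right _ (by linarith)
  have hN0 : 0 < N := lt_of_lt_of_le (by positivity) hN
  have hM20 : 0 < M2 := by
    by_contra hc
    have : K * M2 ≤ 0 := by
      apply mul_nonpos_of_nonneg_of_nonpos (by linarith) (not_lt.1 hc)
    linarith
  rw [Real.log_div hM20.ne' hM0.ne']
  have e1 : y + ((n - κ : ℕ) : ℝ) * Real.log 3 ≤ Real.log N := by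
    rw [Real.le_log_iff_exp_le hN0, Real.exp_add]
    refine le_trans (le_of_eq ?_) hN
    congr 1
    rw [mul_comm, Real.exp_mul, Real.exp_log (by norm_num), Real.rpow_natCast]
  have e2 : Real.log N ≤ Real.log K + Real.log M2 := by
    rw [← Real.log_mul (by linarith) hM20.ne']
    exact Real.log_le_log hN0 hM2
  have e3 : Real.log M ≤ Real.log 40 + ((n - (m + 2) : ℕ) : ℝ) * Real.log 3 := by
    have h3 := Real.log_le_log hM0 hM
    rw [Real.log_mul (by norm_num) (by positivity), Real.log_pow] at h3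
    exact h3
  have hl3 : 0 < Real.log 3 := Real.log_pos (by norm_num)
  have e4 : ((n - (m + 2) : ℕ) : ℝ) ≤ ((n - κ : ℕ) : ℝ) + 3 * g - 2 := by
    have h3 : (n - (m + 2)) + 2 ≤ (n - κ) + 3 * g := by omega
    have h4 : (((n - (m + 2)) + 2 : ℕ) : ℝ) ≤ (((n - κ) + 3 * g : ℕ) : ℝ) := by exact_mod_cast h3
    push_cast at h4
    linarith
  have e5 := mul_le_mul_of_nonneg_right e4 hl3.le
  have e6 := TWO_log3
  have e7 := TWO_log40
  have hgR : (4 : ℝ) ≤ g := by exact_mod_cast hg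
  have e8 : 3 * (g : ℝ) * Real.log 3 ≤ 3 * g * 1.19314719 :=
    mul_le_mul_of_nonneg_left e6 (by positivity)
  nlinarith

theorem TWO (hCHI : CHI_stmt) (hCV1 : CV1_stmt) (hCV2 : CV2_stmt) (hLGW : LGW_stmt)
    (hUPP : UPP_stmt) (hAVG : AVG_stmt) (hTW1 : TW1_stmt) : TWO_stmt := by
  classical
  intro n c κ g T ζ η y U K p hκn hg hgT hκ3 hK hζ1 hζ2 hη0 hη1 hhv
  obtain ⟨w, hwd⟩ : ∃ w : Fin (3 ^ n) → ℝ, w = wt c κ p := ⟨_, rfl⟩
  have hw : ∀ x, 0 < w x := by
    intro x
    rw [hwd]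
    unfold wt
    exact ((hCHI (3 ^ (2 * n)) ((3 : ℝ) ^ (2 * n - κ)) (by positivity)).1 (uv c p x)).1
  obtain ⟨N, hNd⟩ : ∃ N : ℝ, N = NN c κ p := ⟨_, rfl⟩
  have hNw : N = ∑ x, w x := by
    rw [hNd, hwd]
    rfl
  unfold hv at hhv
  rw [← hNd] at hhv ⊢
  have hN0 : 0 < N := lt_of_lt_of_le (by positivity) hhv
  obtain ⟨m, hm⟩ : ∃ m : ℕ, m = 2 * g * T := ⟨_, rfl⟩
  have hK0 : 0 < K := by linarith
  have hlK : 0 < Real.log K := Real.log_pos (by linarith)
  have hgR : (4 : ℝ) ≤ g := by exact_mod_cast hg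
  -- the bad set
  obtain ⟨Z, hZ⟩ : ∃ Z : Finset (Fin (3 ^ n)), Z = univ.filter fun x =>
      K * mj n c.R w 2 x < N ∨ ∃ i ∈ range m, K * mj n c.R w (i + 2 + 1) x < mj n c.R w (i + 2) x :=
    ⟨_, rfl⟩
  have hZm : ∑ x ∈ Z, w x ≤ 16 * n / K * N := by
    have h1 : ∑ x ∈ Z, w x ≤ ∑ x, (w x * ind (K * mj n c.R w 2 x < N) +
        ∑ i ∈ range m, w x * ind (K * mj n c.R w (i + 2 + 1) x < mj n c.R w (i + 2) x)) := by
      rw [hZ, Finset.sum_filter]
      apply Finset.sum_le_sum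
      intro x _
      have hs0 : 0 ≤ ∑ i ∈ range m, w x *
          ind (K * mj n c.R w (i + 2 + 1) x < mj n c.R w (i + 2) x) :=
        Finset.sum_nonneg fun i _ => mul_nonneg (hw x).le (ind_nonneg _)
      have hs1 : 0 ≤ w x * ind (K * mj n c.R w 2 x < N) := mul_nonneg (hw x).le (ind_nonneg _)
      split_ifs with h
      · rcases h with h | ⟨i, hi, h⟩
        · rw [ind_of h, mul_one]
          linarith
        · have h2 : w x * ind (K * mj n c.R w (i + 2 + 1) x < mj n c.R w (i + 2) x) ≤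
              ∑ i ∈ range m, w x *
                ind (K * mj n c.R w (i + 2 + 1) x < mj n c.R w (i + 2) x) :=
            Finset.single_le_sum (f := fun i => w x *
              ind (K * mj n c.R w (i + 2 + 1) x < mj n c.R w (i + 2) x))
              (fun i _ => mul_nonneg (hw x).le (ind_nonneg _)) hi
          rw [ind_of h, mul_one] at h2
          linarith
      · linarith
    rw [Finset.sum_add_distrib, Finset.sum_comm] at h1
    have h2 := hCV2 (Fin (3 ^ n)) n c.R w K hw hK0 (by omega) c.lo c.hi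
    rw [← hNw] at h2
    have h3 : ∑ i ∈ range m, ∑ x, w x *
        ind (K * mj n c.R w (i + 2 + 1) x < mj n c.R w (i + 2) x) ≤
        ∑ _i ∈ range m, 7 / K * N := by
      apply Finset.sum_le_sum
      intro i hi
      rw [Finset.mem_range] at hi
      have h4 := hCV1 (Fin (3 ^ n)) n (i + 2) c.R w K hw hK0 (by omega)
      rw [← hNw] at h4
      exact h4
    rw [Finset.sum_const, Finset.card_range, nsmul_eq_mul] at h3
    have h5 : (7 * (m : ℝ) + 9) ≤ 16 * n := by
      have : 7 * m + 9 ≤ 16 * n := by omega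
      exact_mod_cast this
    calc ∑ x ∈ Z, w x ≤ 9 / K * N + (m : ℝ) * (7 / K * N) := by linarith
      _ = (7 * (m : ℝ) + 9) / K * N := by ring
      _ ≤ 16 * n / K * N := by
          apply mul_le_mul_of_nonneg_right _ hN0.le
          exact div_le_div_of_nonneg_right h5 hK0.le
  -- outside the bad set
  obtain ⟨E3, hE3⟩ : ∃ E3 : ℝ, E3 =
      Real.exp (4 * U - (y - Real.log K - 4 * g) / (40 * g * Real.log K)) := ⟨_, rfl⟩
  obtain ⟨S, hS⟩ : ∃ S : (Fin (T + 1) → Fin (2 * g)) → ℕ → Fin (3 ^ n) → ℝ, S = fun o sh x =>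
      ((pat g κ o).dropLast.map (fun i => ind (good n sh i (c.R x)) * om n c.R w i x)).sum :=
    ⟨_, rfl⟩
  obtain ⟨Pn, hPn⟩ : ∃ Pn : ℝ, Pn = (2 * g : ℝ) ^ (T + 1) * 3 ^ n := ⟨_, rfl⟩
  have hPn0 : 0 ≤ Pn := by rw [hPn]; positivity
  have hout : ∀ x ∈ univ \ Z, ∑ o : Fin (T + 1) → Fin (2 * g), ∑ sh ∈ range (3 ^ n),
      w x * Real.exp (4 * U - S o sh x) ≤ Pn * (w x * E3) := by
    intro x hx
    rw [Finset.mem_sdiff, hZ, Finset.mem_filter] at hx
    have hx' : ¬ (K * mj n c.R w 2 x < N ∨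
        ∃ i ∈ range m, K * mj n c.R w (i + 2 + 1) x < mj n c.R w (i + 2) x) := by
      intro h
      exact hx.2 ⟨Finset.mem_univ _, h⟩
    push_neg at hx'
    obtain ⟨hx1, hx2⟩ := hx'
    have hW := hLGW (Fin (3 ^ n)) n m c.R w K x hw hK (by
      intro i hi
      exact hx2 i (Finset.mem_range.2 hi))
    have hU := hUPP n c κ (m + 2) p x (by omega) hκn
    rw [← hwd] at hU
    have hWn := TWO_num (by omega) (by omega) hg hκn hK hhv (TWO_mj_pos n (m + 2) c.R w hw x) hU
      hx1 hW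
    have hA := hAVG n g κ T (c.R x) (fun i => om n c.R w i x) (by omega) hgT hκn
      (fun i => TWO_om n c.R w hw x i)
    have e1 : ∑ o : Fin (T + 1) → Fin (2 * g), ∑ sh ∈ range (3 ^ n),
        w x * Real.exp (4 * U - S o sh x) = w x * Real.exp (4 * U) *
          ∑ o : Fin (T + 1) → Fin (2 * g), ∑ sh ∈ range (3 ^ n), Real.exp (-(S o sh x)) := by
      rw [Finset.mul_sum]
      apply Finset.sum_congr rfl
      intro o _
      rw [Finset.mul_sum]
      apply Finset.sum_congr rfl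
      intro sh _
      rw [mul_assoc, ← Real.exp_add]
      rfl
    rw [e1]
    have e2 : ∑ o : Fin (T + 1) → Fin (2 * g), ∑ sh ∈ range (3 ^ n), Real.exp (-(S o sh x)) ≤
        Pn * Real.exp (-((∑ i ∈ range m, om n c.R w i x) / (20 * g))) := by
      rw [hS, hPn, hm]
      exact hA
    have e3 : Real.exp (4 * U) * Real.exp (-((∑ i ∈ range m, om n c.R w i x) / (20 * g))) ≤
        E3 := by
      rw [← Real.exp_add, hE3]
      apply Real.exp_le_exp.2
      have h6 : (y - Real.log K - 4 * g) / (40 * g * Real.log K) =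
          (y - Real.log K - 4 * g) / (2 * Real.log K) / (20 * g) := by
        field_simp
        ring
      rw [h6]
      have h7 : (y - Real.log K - 4 * g) / (2 * Real.log K) / (20 * g) ≤
          (∑ i ∈ range m, om n c.R w i x) / (20 * g) :=
        div_le_div_of_nonneg_right hWn (by positivity)
      linarith
    calc w x * Real.exp (4 * U) *
          ∑ o : Fin (T + 1) → Fin (2 * g), ∑ sh ∈ range (3 ^ n), Real.exp (-(S o sh x))
        ≤ w x * Real.exp (4 * U) *
          (Pn * Real.exp (-((∑ i ∈ range m, om n c.R w i x) / (20 * g)))) :=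
          mul_le_mul_of_nonneg_left e2 (mul_nonneg (hw x).le (Real.exp_pos _).le)
      _ = Pn * (w x * (Real.exp (4 * U) *
            Real.exp (-((∑ i ∈ range m, om n c.R w i x) / (20 * g))))) := by ring
      _ ≤ Pn * (w x * E3) := by
          apply mul_le_mul_of_nonneg_left _ hPn0
          exact mul_le_mul_of_nonneg_left e3 (hw x).le
  -- the sum of TW1
  obtain ⟨A, hA⟩ : ∃ A : ℝ, A = Real.exp (-(U / 60000)) + η + Real.exp (-(2 * U)) := ⟨_, rfl⟩
  have hsum : ∑ o : Fin (T + 1) → Fin (2 * g), ∑ sh ∈ range (3 ^ n),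
      rpot n sh ζ η c.R (wt c κ p) (pat g κ o) ≤
      ∑ o : Fin (T + 1) → Fin (2 * g), ∑ sh ∈ range (3 ^ n),
        ((N * A + ∑ x ∈ Z, w x) + ∑ x ∈ univ \ Z, w x * Real.exp (4 * U - S o sh x)) := by
    apply Finset.sum_le_sum
    intro o _
    apply Finset.sum_le_sum
    intro sh hsh
    rw [Finset.mem_range] at hsh
    have h1 := hTW1 n c κ g T sh ζ η U p o Z hκn hg hgT hsh hζ1 hζ2 hη0 hη1
    rw [← hNd, ← hwd] at h1
    rw [← hwd, hA, hS]
    exact h1
  refine hsum.trans ?_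
  have e1 : ∑ o : Fin (T + 1) → Fin (2 * g), ∑ sh ∈ range (3 ^ n),
      ((N * A + ∑ x ∈ Z, w x) + ∑ x ∈ univ \ Z, w x * Real.exp (4 * U - S o sh x)) =
      Pn * (N * A + ∑ x ∈ Z, w x) + ∑ x ∈ univ \ Z, ∑ o : Fin (T + 1) → Fin (2 * g),
        ∑ sh ∈ range (3 ^ n), w x * Real.exp (4 * U - S o sh x) := by
    have h1 : ∀ o : Fin (T + 1) → Fin (2 * g), ∑ sh ∈ range (3 ^ n),
        ((N * A + ∑ x ∈ Z, w x) + ∑ x ∈ univ \ Z, w x * Real.exp (4 * U - S o sh x)) =
        (3 : ℝ) ^ n * (N * A + ∑ x ∈ Z, w x) + ∑ x ∈ univ \ Z, ∑ sh ∈ range (3 ^ n),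
          w x * Real.exp (4 * U - S o sh x) := by
      intro o
      rw [Finset.sum_add_distrib, Finset.sum_const, Finset.card_range, nsmul_eq_mul,
        Finset.sum_comm]
      push_cast
      rfl
    rw [Finset.sum_congr rfl fun o _ => h1 o, Finset.sum_add_distrib, Finset.sum_const,
      nsmul_eq_mul, Finset.sum_comm, Finset.card_univ, Fintype.card_fun, Fintype.card_fin,
      Fintype.card_fin, hPn]
    push_cast
    ring
  rw [e1]
  have e2 : ∑ x ∈ univ \ Z, ∑ o : Fin (T + 1) → Fin (2 * g),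
        ∑ sh ∈ range (3 ^ n), w x * Real.exp (4 * U - S o sh x) ≤ Pn * (N * E3) := by
    calc _ ≤ ∑ x ∈ univ \ Z, Pn * (w x * E3) := Finset.sum_le_sum hout
      _ = Pn * ((∑ x ∈ univ \ Z, w x) * E3) := by
          rw [← Finset.mul_sum, ← Finset.sum_mul]
      _ ≤ Pn * (N * E3) := by
          apply mul_le_mul_of_nonneg_left _ hPn0
          apply mul_le_mul_of_nonneg_right _ (by rw [hE3]; exact (Real.exp_pos _).le)
          rw [hNw]
          exact Finset.sum_le_sum_of_subset_of_nonneg (Finset.subset_univ _)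
            fun x _ _ => (hw x).le
  have e3 : Pn * (N * A + ∑ x ∈ Z, w x) ≤ Pn * (N * A + 16 * n / K * N) := by
    apply mul_le_mul_of_nonneg_left _ hPn0
    linarith
  have e4 : (2 * g : ℝ) ^ (T + 1) * 3 ^ n * (N * (η + et n g y U K)) =
      Pn * (N * A + 16 * n / K * N) + Pn * (N * E3) := by
    rw [← hPn, hA, hE3]
    unfold et
    ring
  rw [e4]
  linarith

end Pool.Agent.GA
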